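import Pool.Agent.PropA.Final

/-!
# Coarse embeddings of C(4)-T(4) small cancellation complexes into Hilbert space

All definitions used in the statement (`Cpx` and its conditions, `CoarseEmb`) are in
`Pool/Agent/PropA/Complex.lean`.
-/

namespace Pool.Agent.Results.MP_db4510_al.HilbertEmbedding

universe u

/-- The vertex set of every simply connected, uniformly locally finite C(4)-T(4) complex, with the
path metric of the 1-skeleton, embeds coarsely into a Hilbert space. -/
theorem result (X : PropA.Cpx.{u}) (hs : X.SimplyConnected) (hu : X.ULF) (h4 : X.C4)
    (ht : X.T4) : PropA.CoarseEmb (fun x y => X.gr.dist x y) :=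
  (PropA.final X hs hu h4 ht).2

end Pool.Agent.Results.MP_db4510_al.HilbertEmbedding
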